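import Mathlib
import Pool.Agent.P.MP_746f10_nt.Main

namespace Pool.Agent.Results.MP_746f10_nt.TwoPrimes

open Finset

/-- Uniform version of the two primes case: among sufficiently many admissible forms two take
different prime values at a point of polynomial size. -/
theorem result : ∃ (k₀ : ℕ) (A γ : ℝ), 0 < A ∧ 0 < γ ∧ ∀ k : ℕ, k₀ ≤ k → ∀ a b : Fin k → ℕ,
    (∀ i, 1 ≤ b i ∧ b i < a i) →
    (∀ p : ℕ, p.Prime → ∃ m : ℤ, ∀ i, ¬ ((p : ℤ) ∣ (a i : ℤ) * m + (b i : ℤ))) →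
    (∀ i j, i ≠ j → (a i, b i) ≠ (a j, b j)) →
    ∃ n : ℕ, (n : ℝ) ≤ γ * ((∏ i, a i : ℕ) : ℝ) ^ A ∧
      ∃ i j, (a i * n + b i).Prime ∧ (a j * n + b j).Prime ∧ a i * n + b i ≠ a j * n + b j := by
  obtain ⟨k0, E, γ, hE, hγ, h⟩ := Pool.Agent.P.MP_746f10_nt.main
  refine ⟨k0, E, γ, by exact_mod_cast hE, by exact_mod_cast hγ, fun k hk a b h1 h2 h3 => ?_⟩
  obtain ⟨s, -, hs⟩ := exists_subset_card_eq (s := (univ : Finset (Fin k))) (n := k0) (by simpa)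
  obtain ⟨n, hn, i, j, hp⟩ := h (fun l : s => a l) (fun l : s => b l) (by simpa using hs)
    (fun l => h1 l) (fun p hp => (h2 p hp).imp fun m hm l => hm l)
    fun i j hij => h3 i j fun h4 => hij (Subtype.ext h4)
  refine ⟨n, ?_, i, j, hp⟩
  rw [Real.rpow_natCast]
  rw [prod_coe_sort s a] at hn
  have : ∏ i ∈ s, a i ≤ ∏ i, a i := prod_le_prod_of_subset_of_one_le' (subset_univ s)
    fun i _ _ => (h1 i).1.trans (h1 i).2.le
  exact_mod_cast hn.trans (by gcongr)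

end Pool.Agent.Results.MP_746f10_nt.TwoPrimes
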