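import Mathlib
import Pool.Agent.P.MP_746f10_nt.UC.All

namespace Pool.Agent.Results.MP_746f10_nt.UniformChen

open Finset

/-- Uniform version of the theorem of Chen: for any two chosen forms of an admissible system there is
a point of polynomial size where the first is prime, the second has at most two prime factors and
every form has boundedly many prime factors. -/
theorem result : ∀ k : ℕ, ∃ (A γ : ℝ) (R : ℕ), 0 < A ∧ 0 < γ ∧ ∀ a b : Fin k → ℕ,
    (∀ i, 1 ≤ b i ∧ b i < a i) →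
    (∀ p : ℕ, p.Prime → ∃ m : ℤ, ∀ i, ¬ ((p : ℤ) ∣ (a i : ℤ) * m + (b i : ℤ))) →
    (∀ i j, i ≠ j → (a i, b i) ≠ (a j, b j)) → ∀ i j, i ≠ j →
    ∃ n : ℕ, 1 ≤ n ∧ (n : ℝ) ≤ γ * ((∏ l, a l : ℕ) : ℝ) ^ A ∧ (a i * n + b i).Prime ∧
      ArithmeticFunction.cardFactors (a j * n + b j) ≤ 2 ∧
      ∀ l, ArithmeticFunction.cardFactors (a l * n + b l) ≤ R := by
  intro k
  obtain ⟨E, γ, R, hE, hγ, h⟩ := Pool.Agent.P.MP_746f10_nt.UC.main_all k
  refine ⟨E, γ, R, by exact_mod_cast hE, by exact_mod_cast hγ, fun a b h1 h2 h3 i j hij => ?_⟩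
  obtain ⟨n, n1, hn, hp⟩ := h a b (by simp) h1 h2 h3 i j hij
  refine ⟨n, n1, ?_, by simpa only [ArithmeticFunction.cardFactors_apply] using hp⟩
  rw [Real.rpow_natCast]
  exact_mod_cast hn

end Pool.Agent.Results.MP_746f10_nt.UniformChen
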