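import Pool.Agent.P.MP_7ebcb6_ag.SC.Fin
import Pool.Agent.P.MP_7ebcb6_ag.SC.Cert
import Pool.Agent.P.MP_7ebcb6_ag.SC.ABS
import Pool.Agent.P.MP_7ebcb6_ag.SC.EXT0
import Pool.Agent.P.MP_7ebcb6_ag.SC.EXTU
import Pool.Agent.P.MP_7ebcb6_ag.SC.FAC
import Pool.Agent.P.MP_7ebcb6_ag.SC.PAR
import Pool.Agent.P.MP_7ebcb6_ag.SC.SUR

/-!
The group of zero-cycles modulo rational equivalence is finite-dimensional for the surfaces of the
eight-dimensional family of simply connected numerical Godeaux surfaces that come from lines on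
four quadrics in `ℙ¹¹`.

`D.surface` is the cone over an open part of the image of the surface in `ℙ¹ × ℙ³` under the
bicanonical and tricanonical maps.  The forms `N` are bihomogeneous, `R` inverts the map given by
`N` (the surface being embedded by the Segre coordinates), so the sets `image D.surface N` include
every projective model of the function field of the surface.  `FinDim X` says that the numbers
`dₘ = dim Sᵐ(X) - min {dim F : F a fibre of Sᵐ(X) → B(X)}` are bounded.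
-/

namespace Pool.Agent.Results.MP_7ebcb6_ag.GodeauxSC

open Pool.Agent.P.MP_7ebcb6_ag Pool.Agent.P.MP_7ebcb6_ag.SC MvPolynomial

theorem result (D : Member ℂ) (hD : GoodLine D.a) (hC : D.Compat) (n e : ℕ) (d : ℕ × ℕ)
    (N : Fin (n + 1) → MvPolynomial (Fin 2 ⊕ Fin 4) ℂ)
    (hN : ∀ i, IsWeightedHomogeneous bideg (N i) d)
    (R : Fin 2 × Fin 4 → MvPolynomial (Fin (n + 1)) ℂ) (hR : ∀ j, (R j).IsHomogeneous e)
    (hinv : ∀ p ∈ D.surface, ∃ c, ∀ j, eval (fun i => eval p (N i)) (R j) = c * segre p j)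
    (p₀ : Pt) (hU : p₀.U 0 = 1) (hY : p₀.Y 0 = 1) (hp : p₀ ∈ D.surface) (hf : Free D.a p₀)
    (ho : Onto D.a p₀) (h₁ : ∃ i, eval p₀ (N i) ≠ 0)
    (h₂ : ∃ j, eval (fun i => eval p₀ (N i)) (R j) ≠ 0)
    (hS : FD.IsSurface (image D.surface N)) : FD.FinDim (image D.surface N) :=
  finDim_of (genRel_of_cert _ (cert_of_cert2 cert)) D hD hC ⟨hN, hR, hinv⟩ hU hY hp hf ho h₁ h₂ hS

/-- The hypotheses can be satisfied: `N` is a multiple of the Segre map. -/
theorem nonvacuous : ∃ (D : Member ℂ) (p₀ : Pt) (d : ℕ × ℕ)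
    (N : Fin (7 + 1) → MvPolynomial (Fin 2 ⊕ Fin 4) ℂ)
    (R : Fin 2 × Fin 4 → MvPolynomial (Fin (7 + 1)) ℂ), GoodLine D.a ∧ D.Compat ∧
    (∀ i, IsWeightedHomogeneous bideg (N i) d) ∧ (∀ j, (R j).IsHomogeneous 1) ∧
    (∀ p ∈ D.surface, ∃ c, ∀ j, eval (fun i => eval p (N i)) (R j) = c * segre p j) ∧
    p₀.U 0 = 1 ∧ p₀.Y 0 = 1 ∧ p₀ ∈ D.surface ∧ Free D.a p₀ ∧ Onto D.a p₀ ∧
    (∃ i, eval p₀ (N i) ≠ 0) ∧ (∃ j, eval (fun i => eval p₀ (N i)) (R j) ≠ 0) ∧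
    FD.IsSurface (image D.surface N) :=
  let ⟨D, p₀, d, N, h1, h2, M, h3⟩ :=
    example_of cert (thm_EXT0 thm_ABS) thm_EXTU thm_FAC thm_PAR thm_SUR
  ⟨D, p₀, d, N, RX, h1, h2, M.hN, M.hR, M.inv, h3⟩

end Pool.Agent.Results.MP_7ebcb6_ag.GodeauxSC
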