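import Pool.Agent.P.MP_7ebcb6_ag.Main2
import Pool.Agent.P.MP_7ebcb6_ag.Example
import Pool.Agent.P.MP_7ebcb6_ag.FD.Glue

/-!
Bloch's conjecture `B₀(X) = 0` for a 7-dimensional family of numerical Godeaux surfaces with
torsion `ℤ/2`.

`Y = {q₀ = q₂ = 0} ⊂ ℙ(1,1,1,2,2)` and `ι` is the involution with signs `wt`; `Y/ι` is a
Catanese-Debarre surface.  The forms `N` are `ι`-eigenforms of one degree and one sign, so the
closures `X` of the images of `Y` under such `N` include every projective model, smooth or not,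
of the function field of `Y/ι`.  The divisibility conditions on `I` and `J` say that the Jacobian
of the pencil of genus one curves `w² = σ · pencilDisc` is a rational elliptic surface; the last
condition says that its fibre over `σ = -f.c / g.c` has type `I₂`.
-/

namespace Pool.Agent.Results.MP_7ebcb6_ag.GodeauxZ2

open Pool.Agent.P.MP_7ebcb6_ag Polynomial

theorem result (f g : EvenQuartic) (σ₀ : ℂ) (hf : f.c ≠ 0) (hg : g.c ≠ 0)
    (hprime : (Ideal.span {q₀ f, q₂ g}).IsPrime) (hσ : σ₀ ≠ 0)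
    (hI : (X - C σ₀) ^ 4 ∣ invI (pencilDisc f g)) (hJ : (X - C σ₀) ^ 6 ∣ invJ (pencilDisc f g))
    (hnode : ¬ (C f.c + C g.c * X) ^ 3 ∣
      4 * invI (pencilDisc f g) ^ 3 - invJ (pencilDisc f g) ^ 2)
    (n : ℕ) (N : Fin (n + 1) → MvPolynomial (Fin 5) ℂ) (d : ℕ × ZMod 2)
    (hN : ∀ i, MvPolynomial.IsWeightedHomogeneous wt (N i) d)
    (hN0 : ∃ i, N i ∉ Ideal.span {q₀ f, q₂ g})
    (D : zariskiClosure (imageOf (q₀ f) (q₂ g) N) →₀ ℤ) (hD : D.degree = 0) :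
    D ∈ ratTrivial (zariskiClosure (imageOf (q₀ f) (q₂ g) N)) := by
  have H := main f g N hf hg hprime hσ hI hJ hnode d hN hN0
  have e : imageOf (q₀ f) (q₂ g) N
      = FD.im (MvPolynomial.zeroLocus ℂ (Ideal.span {q₀ f, q₂ g})) N := by
    ext z
    simp [imageOf, FD.im, MvPolynomial.zeroLocus_span, and_assoc, MvPolynomial.aeval_eq_eval]
  have hv := MvPolynomial.IsPrime.vanishingIdeal_zeroLocus (K := ℂ) (Ideal.span {q₀ f, q₂ g})
  revert D
  rw [e] at H ⊢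
  refine FD.w1_im (hv.symm ▸ hprime) ?_ H
  obtain ⟨i, hi⟩ := hN0
  by_contra! h
  exact hi (hv ▸ fun p hp => h p hp i)

/-- The hypotheses on `f, g, σ₀` can be satisfied. -/
theorem nonvacuous : ∃ (f g : EvenQuartic) (σ₀ : ℂ), f.c ≠ 0 ∧ g.c ≠ 0 ∧
    (Ideal.span {q₀ f, q₂ g}).IsPrime ∧ σ₀ ≠ 0 ∧ (X - C σ₀) ^ 4 ∣ invI (pencilDisc f g) ∧
    (X - C σ₀) ^ 6 ∣ invJ (pencilDisc f g) ∧
    ¬ (C f.c + C g.c * X) ^ 3 ∣ 4 * invI (pencilDisc f g) ^ 3 - invJ (pencilDisc f g) ^ 2 :=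
  ⟨exF, exG, -1, by simp [exF], by simp [exG], ex_prime, by simp, ⟨_, ex_I⟩, ⟨_, ex_J⟩, ex_disc⟩

end Pool.Agent.Results.MP_7ebcb6_ag.GodeauxZ2
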