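import Pool.Agent.P.MP_7ebcb6_ag.G8.Final
import Pool.Agent.P.MP_7ebcb6_ag.G8.Glue
import Pool.Agent.P.MP_7ebcb6_ag.G8.Block
import Pool.Agent.P.MP_7ebcb6_ag.FD.Glue
import Pool.Agent.P.MP_7ebcb6_ag.FD.NV

/-!
The group of zero-cycles modulo rational equivalence is finite-dimensional for the
eight-dimensional family of numerical Godeaux surfaces with torsion `ℤ/2`.

`octic g la mu` is the cone over the octic surface `det (cdMatrix) = 0` in `ℙ³`, the bicanonical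
image of the universal cover `Y`; the involution negates the last two coordinates.  The forms `N`
are eigenforms of one degree and one sign, `R` inverts the map given by `N` on the quotient of the
octic (embedded in `ℙ⁵` by `nu`), so the sets `closedImage` include every projective model of
the function field of the quotient.  `FinDim X` says that the numbers
`dₘ = dim Sᵐ(X) - min {dim F : F a fibre of Sᵐ(X) → B(X)}` are bounded.
-/

namespace Pool.Agent.Results.MP_7ebcb6_ag.GodeauxZ2Full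

open Pool.Agent.P.MP_7ebcb6_ag Pool.Agent.P.MP_7ebcb6_ag.G8 MvPolynomial

theorem result (g : Fin 6 → ℂ) (la mu : ℂ) (hirr : (vanishingIdeal ℂ (octic g la mu)).IsPrime)
    (n e : ℕ) (d : ℕ × ZMod 2)
    (N : Fin (n + 1) → MvPolynomial (Fin 4) ℂ) (hN : ∀ i, IsWeightedHomogeneous wt4 (N i) d)
    (R : Fin 6 → MvPolynomial (Fin (n + 1)) ℂ) (hR : ∀ j, (R j).IsHomogeneous e)
    (hinv : ∀ p ∈ octic g la mu, ∃ c, ∀ j, eval (fun i => eval p (N i)) (R j) = c * nu p j)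
    (p₀ : Fin 4 → ℂ) (h₀ : p₀ ∈ octic g la mu)
    (h₁ : p₀ 0 * cayley (p₀ 0) (p₀ 1) (p₀ 2) (p₀ 3) ≠ 0) (h₂ : ∃ i, eval p₀ (N i) ≠ 0)
    (h₃ : ∃ j, eval (fun i => eval p₀ (N i)) (R j) ≠ 0) :
    FD.FinDim (closedImage (octic g la mu) N) := by
  obtain ⟨F, r, hF, h1, H⟩ :=
    main_hyp (genericRel_of blockLemma) g la mu N hN R hR hinv p₀ h₀ h₁ h₂ h₃
  exact FD.w2_im hirr (FD.dimX_le_two (FD.NV.Phi_ne_zero g la mu) (FD.NV.homog_Phi g la mu)
    (fun p hp => FD.NV.mem_octic_iff.1 hp) fun i c p => N_smul (R := ℂ) (hN i) c p) hF h₀ h₂ h1 H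

/-- The hypotheses can be satisfied: take the invariant quadrics for `N`. -/
theorem nonvacuous : ∃ (g : Fin 6 → ℂ) (la mu : ℂ) (p₀ : Fin 4 → ℂ),
    (vanishingIdeal ℂ (octic g la mu)).IsPrime ∧
    (∀ i, IsWeightedHomogeneous wt4 (nuP i) (2, 0)) ∧
    (∀ p ∈ octic g la mu, ∃ c, ∀ j, eval (fun i => eval p (nuP i)) (X j) = c * nu p j) ∧
    p₀ ∈ octic g la mu ∧ p₀ 0 * cayley (p₀ 0) (p₀ 1) (p₀ 2) (p₀ 3) ≠ 0 ∧
    (∃ i, eval p₀ (nuP i) ≠ 0) ∧ ∃ j, eval (fun i => eval p₀ (nuP i)) (X j) ≠ 0 := by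
  obtain ⟨y, hy, h⟩ := FD.NV.exists_good
  refine ⟨0, 0, 1, _, FD.NV.isPrime_octic, fun i => ?_, fun p _ => ⟨1, fun j => by simp [eval_nuP]⟩,
    hy, by simpa using h, ⟨0, by simp [nuP]⟩, ⟨0, by simp [nuP]⟩⟩
  have hX := isWeightedHomogeneous_X ℂ wt4
  fin_cases i
  exacts [(hX 0).pow 2, (hX 0).mul (hX 1), (hX 1).pow 2, (hX 2).pow 2, (hX 2).mul (hX 3),
    (hX 3).pow 2]

end Pool.Agent.Results.MP_7ebcb6_ag.GodeauxZ2Full
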