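import Pool.Agent.P.MP_9cbceb_lc.All
import Pool.Agent.P.MP_9cbceb_lc.Sanity

namespace Pool.Agent.Results.MP_9cbceb_lc.AllConstants

open Pool.Agent.P.MP_9cbceb_lc

/-- Sanity check, not used below: exact optima exist and are not longer than the input. -/
theorem sanity : ∃ A : ℕ × List (ℕ × ℕ × ℚ) × List (ℕ × ℕ × ℚ) → List Bool,
    (∀ p, (A p).length ≤ p.2.2.length + 1) ∧ Approx 1 A := sanity_opt

/-- A polynomial-time constant-factor approximation of weighted sparsest cut gives `P = NP`. -/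
theorem result (C : ℝ) (hC : 1 ≤ C)
    (A : ℕ × List (ℕ × ℕ × ℚ) × List (ℕ × ℕ × ℚ) → List Bool)
    (hA : N68a2faeb.IsPolyTime A) (h : Approx C A) : N68a2faeb.P = N68a2faeb.NP :=
  main_thm C A hC hA h

end Pool.Agent.Results.MP_9cbceb_lc.AllConstants
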