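import Pool.Agent.P.MP_a14ce1_nt.Ch.All

namespace Pool.Agent.Results.MP_a14ce1_nt.TwoPoint

/-- Two-point correlations of the Liouville function along two non-proportional affine forms
are o(N), with ordinary averages and at every scale. -/
theorem result (a₁ a₂ b₁ b₂ : ℕ) (h₁ : 0 < a₁) (h₂ : 0 < a₂) (h : a₁ * b₂ ≠ a₂ * b₁) :
    Asymptotics.IsLittleO Filter.atTop
      (fun N : ℕ => ∑ n ∈ Finset.Icc 1 N,
        (-1 : ℝ) ^ ArithmeticFunction.cardFactors (a₁ * n + b₁) *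
          (-1 : ℝ) ^ ArithmeticFunction.cardFactors (a₂ * n + b₂))
      (fun N : ℕ => (N : ℝ)) :=
  Pool.Agent.P.MP_a14ce1_nt.Ch.two_point Pool.Agent.P.MP_a14ce1_nt.Ch.core_all a₁ a₂ b₁ b₂ h₁ h₂ h

end Pool.Agent.Results.MP_a14ce1_nt.TwoPoint
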