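import Pool.Agent.P.MP_b8021b_nt.Main2
import Pool.Agent.P.MP_b8021b_nt.Example
import Pool.Agent.P.MP_b8021b_nt.Desc3

/-!
Zero-cycles of degree zero are torsion modulo rational equivalence over a number field, for a
7-dimensional family of numerical Godeaux surfaces with torsion `ℤ/2`.

`Y = {q₀ = q₂ = 0} ⊂ ℙ(1,1,1,2,2)` and `ι` is the involution with signs `wt`; `Y/ι` is a
Catanese-Debarre surface.  The forms `N` are `ι`-eigenforms of one degree and one sign with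
coefficients in `k`, so the closures `X` of the images of `Y` under such `N` include every
projective model over `k`, smooth or not, of the function field of `Y/ι`.
-/

namespace Pool.Agent.Results.MP_b8021b_nt.GodeauxRankZero

open Pool.Agent.P.MP_b8021b_nt Polynomial

theorem result (k : IntermediateField ℚ (AlgebraicClosure ℚ)) (f g : EvenQuartic) (σ₀ : (AlgebraicClosure ℚ))
    (hfk : ∀ m, (q₀ f).coeff m ∈ k) (hgk : ∀ m, (q₂ g).coeff m ∈ k)
    (hf : f.c ≠ 0) (hg : g.c ≠ 0)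
    (hprime : (Ideal.span {q₀ f, q₂ g}).IsPrime) (hσ : σ₀ ≠ 0)
    (hI : (X - C σ₀) ^ 4 ∣ invI (pencilDisc f g)) (hJ : (X - C σ₀) ^ 6 ∣ invJ (pencilDisc f g))
    (hnode : ¬ (C f.c + C g.c * X) ^ 3 ∣
      4 * invI (pencilDisc f g) ^ 3 - invJ (pencilDisc f g) ^ 2)
    (n : ℕ) (N : Fin (n + 1) → MvPolynomial (Fin 5) (AlgebraicClosure ℚ)) (d : ℕ × ZMod 2)
    (hNk : ∀ i m, (N i).coeff m ∈ k)
    (hN : ∀ i, MvPolynomial.IsWeightedHomogeneous wt (N i) d)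
    (hN0 : ∃ i, N i ∉ Ideal.span {q₀ f, q₂ g})
    (D : zariskiClosure (imageOf (q₀ f) (q₂ g) N) →₀ ℤ) (hG : GaloisInvariant k D)
    (hD : D.degree = 0) :
    ∃ m : ℕ, 0 < m ∧ m • D ∈ ratTrivialOver k (zariskiClosure (imageOf (q₀ f) (q₂ g) N)) := by
  obtain ⟨m, hm, h⟩ := main f g N hf hg hprime hσ hI hJ hnode d hN hN0 D hD
  exact descent (stable_imageOf hfk hgk hNk).closure hG hm h

/-- The hypotheses on `f, g, σ₀` can be satisfied over every `k`. -/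
theorem nonvacuous (k : IntermediateField ℚ (AlgebraicClosure ℚ)) : ∃ (f g : EvenQuartic) (σ₀ : (AlgebraicClosure ℚ)),
    (∀ m, (q₀ f).coeff m ∈ k) ∧ (∀ m, (q₂ g).coeff m ∈ k) ∧ f.c ≠ 0 ∧ g.c ≠ 0 ∧
    (Ideal.span {q₀ f, q₂ g}).IsPrime ∧ σ₀ ≠ 0 ∧ (X - C σ₀) ^ 4 ∣ invI (pencilDisc f g) ∧
    (X - C σ₀) ^ 6 ∣ invJ (pencilDisc f g) ∧
    ¬ (C f.c + C g.c * X) ^ 3 ∣ 4 * invI (pencilDisc f g) ^ 3 - invJ (pencilDisc f g) ^ 2 := by
  have key : ∀ q ∈ (MvPolynomial.map (σ := Fin 5) (algebraMap k (AlgebraicClosure ℚ))).range, ∀ m, q.coeff m ∈ k := by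
    rintro _ ⟨q, rfl⟩ m
    rw [MvPolynomial.coeff_map]
    exact (q.coeff m).2
  have hX : ∀ i, MvPolynomial.X i ∈ (MvPolynomial.map (σ := Fin 5) (algebraMap k (AlgebraicClosure ℚ))).range :=
    fun i => ⟨MvPolynomial.X i, by simp⟩
  have hC : ∀ (c : (AlgebraicClosure ℚ)) (r : ℚ), c = r →
      MvPolynomial.C c ∈ (MvPolynomial.map (σ := Fin 5) (algebraMap k (AlgebraicClosure ℚ))).range :=
    fun c r h => ⟨MvPolynomial.C (r : k), by simp [h]⟩
  have hp : ∀ f : EvenQuartic, (∀ i, ∃ r : ℚ, f.a i = r) → (∀ i, ∃ r : ℚ, f.b i = r) →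
      (∃ r : ℚ, f.c = r) → f.poly ∈ (MvPolynomial.map (σ := Fin 5) (algebraMap k (AlgebraicClosure ℚ))).range := by
    intro f ha hb hc
    choose a ha using ha
    choose b hb using hb
    obtain ⟨c, hc⟩ := hc
    have h1 := fun i => hC _ _ (ha i)
    have h2 := fun i => hC _ _ (hb i)
    have h3 := hC _ _ hc
    unfold EvenQuartic.poly
    have h4 := fun i (e : ℕ) => pow_mem (hX i) e
    exact add_mem (add_mem (add_mem (add_mem (add_mem (add_mem (mul_mem (h1 _) (h4 _ _))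
      (mul_mem (mul_mem (h1 _) (h4 _ _)) (hX _))) (mul_mem (mul_mem (h1 _) (h4 _ _)) (h4 _ _)))
      (mul_mem (mul_mem (h1 _) (hX _)) (h4 _ _))) (mul_mem (h1 _) (h4 _ _)))
      (mul_mem (h4 _ _) (add_mem (add_mem (mul_mem (h2 _) (h4 _ _))
        (mul_mem (mul_mem (h2 _) (hX _)) (hX _))) (mul_mem (h2 _) (h4 _ _)))))
      (mul_mem h3 (h4 _ _))
  refine ⟨exF, exG, -1, key _ ?_, key _ ?_, by simp [exF], by simp [exG], ex_prime, by simp,
    ⟨_, ex_I⟩, ⟨_, ex_J⟩, ex_disc⟩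
  · refine add_mem (add_mem (pow_mem (hX _) _) (mul_mem (mul_mem (hX _) (hX _)) (hX _)))
      (hp _ (fun i => ⟨![1 / 2, 1, 1 / 4, -3 / 4, -1 / 2] i, ?_⟩)
        (fun i => ⟨![-2, -1 / 2, -1] i, ?_⟩) ⟨1, by simp [exF]⟩)
    all_goals fin_cases i <;> simp [exF]
  · refine add_mem (add_mem (pow_mem (hX _) _) (mul_mem (mul_mem (hX _) (hX _)) (hX _)))
      (hp _ (fun i => ⟨![1 / 4, 3 / 2, -5 / 4, -1 / 4, -1 / 4] i, ?_⟩)
        (fun i => ⟨![-5 / 4, -1, 0] i, ?_⟩) ⟨3 / 4, by simp [exG]⟩)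
    all_goals fin_cases i <;> simp [exG]

end Pool.Agent.Results.MP_b8021b_nt.GodeauxRankZero
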