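import Pool.Agent.P.MP_ee618e_ag.X.FIN2
import Pool.Agent.P.MP_ee618e_ag.X.NV

/-!
Exotic Tate classes in characteristic two. The surface `Z ⊂ C₁ × C₁ × E × C₃` of `Surf` identifies,
in the second cohomology of its function field, the transcendental part of `H¹(C₁) ⊗ H¹(C₁)` with
a part of `H¹(E) ⊗ H¹(C₃)`; all Tate tensors on the corresponding eigenspaces are generated by
the Tate classes of codimension one and this correspondence.
-/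

namespace Pool.Agent.Results.MP_ee618e_ag.ExoticChar2

open Pool.Agent.P.MP_ee618e_ag.X

/-- the surface with parameters `b`, `d` exists over some `𝔽_q`, `q = 4 ^ r` -/
def Ex (b d : AlgebraicClosure (ZMod 2)) : Prop :=
  ∃ (Ω : Type) (_ : Field Ω) (_ : IsAlgClosed Ω) (_ : CharP Ω 2)
    (i : AlgebraicClosure (ZMod 2) →+* Ω) (r : ℕ) (D : Surf Ω (4 ^ r)),
    0 < r ∧ D.b = i b ∧ D.d = i d

variable {Ω Λ : Type} [Field Ω] [NormedField Λ] {q : ℕ} (D : Surf Ω q) (ev : Fin 4 → Set Λ)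

/-- the projection `Z → E × C₃` is dominant -/
def Dom : Prop := AlgebraicIndependent (Subfield.closure (cst Ω)) ![D.u, D.t]

/-- all elements of `ev i` are eigenvalues of Frobenius on `H¹` of the curve number `i` -/
def Occ (i : Fin 4) : Prop := ∀ π ∈ ev i, ∃ χ ∈ D.Eig i π, χ ≠ 0

/-- a class in `H¹(E)_e ⊗ H¹(C₃)_ρ` with nonzero cup product on the generic point of `Z` has the
same cup product as a class on `C₁ × C₁` -/
def Link (e ρ : Λ) : Prop :=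
  ∃ a ∈ tens ![D.U ev 0, D.U ev 1], ∃ b ∈ tens ![D.U (fun _ => {e}) 2, D.U (fun _ => {ρ}) 3],
    D.Coh a b ∧ ¬ D.Coh 0 b

/-- all Tate tensors on the sum of the eigenspaces are in `Gen` -/
def AllGen : Prop :=
  ∀ (n : ℕ) (t : Ten (Fin (2 * n)) (Fin 4 × (Ω ≃+* Ω)) Λ), t ∈ tens (fun _ => ⋃ i, D.U ev i) →
    Tate D.φ (q : Λ) n t → Gen D.φ (q : Λ) (D.U ev) D.Coh _ t

theorem result :
    (∀ b d : AlgebraicClosure (ZMod 2), d ≠ 0 → Ex b d) ∧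
    ∀ (Ω : Type) [Field Ω] [IsAlgClosed Ω] [CharP Ω 2] (r : ℕ), 0 < r → ∀ D : Surf Ω (4 ^ r),
      Dom D ∧
      ∀ (ℓ : ℕ) [Fact ℓ.Prime], ℓ ≠ 2 → ∀ (Λ : Type) [NormedField Λ] [NormedAlgebra ℚ_[ℓ] Λ]
        [FiniteDimensional ℚ_[ℓ] Λ] (π₁ π₂ e : Λ), e = (-2) ^ r →
        (∀ i j k : ℤ, π₁ ^ i * π₂ ^ j * 2 ^ k = 1 → i = 0 ∧ j = 0 ∧ k = 0) →
        Occ D (evs π₁ π₂ e) 0 →
        (∀ i, Occ D (evs π₁ π₂ e) i) ∧ (∀ ρ ∈ evs π₁ π₂ e 3, Link D (evs π₁ π₂ e) e ρ) ∧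
          AllGen D (evs π₁ π₂ e) := by
  refine ⟨exists_surf, fun _ _ _ _ r hr D =>
    ⟨D.indep_X hr 2, fun _ _ hℓ Λ _ _ _ π₁ π₂ e he ind hex => ?_⟩⟩
  have h : ((4 ^ r : ℕ) : Λ) = e ^ 2 := by
    rw [he, ← pow_mul, mul_comm, pow_mul]
    norm_num
  obtain ⟨h1, h2, h3⟩ := main hℓ hr D π₁ π₂ e he ind hex
  refine ⟨h1, h2, ?_⟩
  rw [AllGen, h]
  exact h3

end Pool.Agent.Results.MP_ee618e_ag.ExoticChar2
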