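import Pool.Agent.P.MP_ee618e_ag.Y.FI3
import Pool.Agent.P.MP_ee618e_ag.Y.NV

/-!
Exotic Tate classes in odd characteristic `p ≡ 2 mod 3`. For the curve
`C : w ^ 6 = t ^ 3 (t - 1) ^ 2 ∏ (t - c j)` the `(ξ, ξ)`-part of `H¹(C) ⊗ H¹(C)` comes, modulo divisor
classes on a surface over `C × C`, from products of `E : y ^ 2 = x ^ 3 + 1` with a curve; all Tate
tensors on the corresponding eigenspaces are generated by the Tate classes of codimension one and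
this correspondence.
-/

namespace Pool.Agent.Results.MP_ee618e_ag.ExoticInert

open Pool.Agent.P.MP_ee618e_ag.X.Y Polynomial

/-- the configuration with parameters `c` exists over some `𝔽_q`, `q = p ^ r`, and the two further
varieties can be taken to be (components of) the plane curves `g j = 0` -/
def Ex (p : ℕ) [Fact p.Prime] (c : Fin 4 → AlgebraicClosure (ZMod p))
    (g : Fin 2 → (AlgebraicClosure (ZMod p))[X][X]) : Prop :=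
  ∃ (Ω : Type) (_ : Field Ω) (_ : IsAlgClosed Ω) (_ : CharP Ω p)
    (i : AlgebraicClosure (ZMod p) →+* Ω) (r : ℕ) (D : Cfg Ω (p ^ r)) (y : Fin 2 → Ω),
    0 < r ∧ (∀ j, D.c j = i (c j)) ∧ (∀ j, (g j).eval₂ (eval₂RingHom i (D.t 0)) (y j) = 0) ∧
      D.S 2 = {D.t 0, y 0} ∧ D.S 3 = {D.t 0, y 1}

variable {Ω Λ : Type} [Field Ω] [NormedField Λ] {q : ℕ} (D : Cfg Ω q)

/-- `π₁, q / π₁` and `π₂, q / π₂` are eigenvalues of Frobenius on the `ξ`-part of `H¹(C)`, and each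
of the nine numbers in `evs` is an eigenvalue on `H¹` of one of the four varieties -/
def Occ (ξ π₁ π₂ e : Λ) : Prop :=
  (∀ π ∈ ({π₁, q / π₁} : Set Λ), ∃ χ ∈ D.Part 0 ξ ∩ D.Eig 0 π, χ ≠ 0) ∧
  (∀ π ∈ ({π₂, q / π₂} : Set Λ), ∃ χ ∈ D.Part 1 ξ ∩ D.Eig 1 π, χ ≠ 0) ∧
  ∀ π ∈ evs π₁ π₂ e, ∃ i, ∃ χ ∈ D.Eig i π, χ ≠ 0

/-- all Tate tensors on the sum of the eigenspaces are in `Alg` -/
def AllAlg (ev : Set Λ) : Prop :=
  ∀ (n : ℕ) (t : Ten (Fin (2 * n)) (Fin 4 × (Ω ≃+* Ω)) Λ), t ∈ tens (fun _ => ⋃ i, D.U ev i) →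
    Tate D.φ (q : Λ) n t → Alg D.φ (q : Λ) (D.U ev) D.Coh _ t

theorem result (p : ℕ) [Fact p.Prime] (h2 : p ≠ 2) (h3 : p % 3 = 2) :
    (∀ c : Fin 4 → AlgebraicClosure (ZMod p), Function.Injective c → (∀ j, c j ≠ 0 ∧ c j ≠ 1) →
      ∀ g : Fin 2 → (AlgebraicClosure (ZMod p))[X][X], (∀ j, 0 < (g j).natDegree) → Ex p c g) ∧
    ∀ (Ω : Type) [Field Ω] [IsAlgClosed Ω] [CharP Ω p] (r : ℕ), 0 < r → ∀ (D : Cfg Ω (p ^ r))
      (ℓ : ℕ) [Fact ℓ.Prime], ℓ ≠ 2 → ℓ ≠ p → ∀ (Λ : Type) [NormedField Λ] [NormedAlgebra ℚ_[ℓ] Λ]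
      [FiniteDimensional ℚ_[ℓ] Λ] (ξ π₁ π₂ e : Λ), IsPrimitiveRoot ξ 6 → e ^ 2 = (p ^ r : ℕ) →
      (∀ i j : ℤ, (π₁ / e) ^ i * (π₂ / e) ^ j = 1 → i = 0 ∧ j = 0) →
      Occ D ξ π₁ π₂ e → AllAlg D (evs π₁ π₂ e) := by
  refine ⟨exists_cfg p h2 (by rintro rfl; omega),
    fun _ _ _ _ r hr D ℓ _ h hℓ Λ _ _ _ ξ π₁ π₂ e hξ he ind ⟨h₀, h₁, hex⟩ => ?_⟩
  have : CharZero Λ := charZero_of (ℓ := ℓ)
  have e0 : e ≠ 0 := by
    rintro rfl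
    exact Nat.cast_ne_zero.2 (pow_ne_zero r (Fact.out : p.Prime).ne_zero)
      (he.symm.trans (zero_pow two_ne_zero))
  rw [AllAlg, ← he]
  rw [← he] at h₀ h₁
  exact main h hℓ hr D hξ e0 ind hex h₀ h₁

end Pool.Agent.Results.MP_ee618e_ag.ExoticInert
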